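import Pool.Agent.helper88.CFL.TR
import Pool.Agent.helper13.CFL.DT
import Pool.Agent.helper62.CFL.PD
import Pool.Agent.helper62.CFL.MN
import Pool.Agent.helper98.CFL.VO
import Pool.Agent.helper16.CFL.LM
import Pool.Agent.helper62.CFL.RD
import Pool.Agent.helper62.CFL.FlowR

/-!
# MP_95f808 : the circular flow index and the size of the odd edge cuts

A multigraph on the vertices `Fin n` with the edges `Fin m` is given by the ends of its edges
(loops and parallel edges allowed).  If every edge cut with an odd number of edges has at least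
`l` edges, `l` odd, then there is an integer flow all of whose values have absolute value between
`l - 2` and `l + 2`, that is, for `l ≥ 3`, a circular `(2 + 4/(l - 2))`-flow.

For `l = 2 k + 1` this applies to every `2 k`-edge-connected graph.
-/

namespace Pool.Agent.Results.MP_95f808_co.FlowIndexOddCuts

open Pool.Agent.helper11.CFL in
theorem result :
    ∀ l : ℕ, Odd l → ∀ n m : ℕ, ∀ ends : Fin m → Fin n × Fin n,
      (∀ S : Finset (Fin n),
        Odd (Finset.univ.filter (fun e : Fin m =>
          ((ends e).1 ∈ S ∧ (ends e).2 ∉ S) ∨ ((ends e).1 ∉ S ∧ (ends e).2 ∈ S))).card →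
        l ≤ (Finset.univ.filter (fun e : Fin m =>
          ((ends e).1 ∈ S ∧ (ends e).2 ∉ S) ∨ ((ends e).1 ∉ S ∧ (ends e).2 ∈ S))).card) →
      ∃ f : Fin m → ℤ,
        (∀ e, (l : ℤ) - 2 ≤ |f e| ∧ |f e| ≤ (l : ℤ) + 2) ∧
        ∀ v : Fin n,
          ∑ e ∈ Finset.univ.filter (fun e : Fin m => (ends e).1 = v), f e =
          ∑ e ∈ Finset.univ.filter (fun e : Fin m => (ends e).2 = v), f e := by
  intro l hl n m ends h
  exact OddCut.odd_cut_flowR (ZOR_of TR DT PD MN Pool.Agent.helper98.CFL.VO LM) RD l hl
    (fun e => (ends e).1) (fun e => (ends e).2) h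

end Pool.Agent.Results.MP_95f808_co.FlowIndexOddCuts
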