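import Pool.Agent.helper11.CFL.ZO
import Pool.Agent.helper88.CFL.TR
import Pool.Agent.helper13.CFL.DT
import Pool.Agent.helper62.CFL.PD
import Pool.Agent.helper62.CFL.MN
import Pool.Agent.helper98.CFL.VO
import Pool.Agent.helper16.CFL.LM
import Pool.Agent.helper62.CFL.RD
import Pool.Agent.helper62.CFL.Odd2

/-!
# MP_95f808 : circular flows from large odd edge cuts

A multigraph on the vertices `Fin n` with the edges `Fin m` is given by the ends of its edges
(loops and parallel edges allowed).  Assume that every edge cut with an odd number of edges has at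
least `2 k + 1` edges, and that there are no `2 k + 4` pairwise disjoint vertex sets each left by
exactly `2 k + 1` edges.  Then there is an integer flow all of whose values have absolute value
between `k` and `k + 2`, that is, a circular `(2 + 2/k)`-flow.

The second assumption holds when the odd cuts have at least `2 k + 3` edges, in particular in every
`(2 k + 2)`-edge-connected graph, and it holds in every graph with at most `2 k + 2` vertices of
odd degree.
-/

namespace Pool.Agent.Results.MP_95f808_co.OddCutFlow

open Pool.Agent.helper11.CFL in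
theorem result :
    ∀ k : ℕ, ∀ n m : ℕ, ∀ ends : Fin m → Fin n × Fin n,
      (∀ S : Finset (Fin n),
        Odd (Finset.univ.filter (fun e : Fin m =>
          ((ends e).1 ∈ S ∧ (ends e).2 ∉ S) ∨ ((ends e).1 ∉ S ∧ (ends e).2 ∈ S))).card →
        2 * k + 1 ≤ (Finset.univ.filter (fun e : Fin m =>
          ((ends e).1 ∈ S ∧ (ends e).2 ∉ S) ∨ ((ends e).1 ∉ S ∧ (ends e).2 ∈ S))).card) →
      (∀ X : Fin (2 * k + 4) → Finset (Fin n), (∀ i j, i ≠ j → Disjoint (X i) (X j)) →
        ∃ i, (Finset.univ.filter (fun e : Fin m =>
          ((ends e).1 ∈ X i ∧ (ends e).2 ∉ X i) ∨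
            ((ends e).1 ∉ X i ∧ (ends e).2 ∈ X i))).card ≠ 2 * k + 1) →
      ∃ f : Fin m → ℤ,
        (∀ e, (k : ℤ) ≤ |f e| ∧ |f e| ≤ (k : ℤ) + 2) ∧
        ∀ v : Fin n,
          ∑ e ∈ Finset.univ.filter (fun e : Fin m => (ends e).1 = v), f e =
          ∑ e ∈ Finset.univ.filter (fun e : Fin m => (ends e).2 = v), f e := by
  intro k n m ends h hd
  exact OddCut.tight_cut_flow (ZO_of TR DT PD MN Pool.Agent.helper98.CFL.VO LM) RD k
    (fun e => (ends e).1) (fun e => (ends e).2) h hd

end Pool.Agent.Results.MP_95f808_co.OddCutFlow
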