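import Pool.Agent.helper11.CFL.FinR

set_option autoImplicit false

namespace Pool.Agent.Results.MP_95f808_co.TreePackingFlows

/-- Circular flows from (fractional) tree packings, in all multigraphs: let `0 < b ≤ a` and let
`ends` be a finite multigraph on `Fin n` with edge set `Fin m` such that `b` times the number of
edges crossing any partition of the vertex set into `p` classes is at least `a (p - 1)` (the
fractional spanning tree packing number is at least `a / b`). Then there is an integer flow all of
whose values have absolute value between `a - b` and `a + b`. For `a = k + 1`, `b = 1` (there are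
`k + 1` edge-disjoint spanning trees) this is a circular `(2 + 2/k)`-flow. -/
theorem result : ∀ a b : ℕ, 0 < b → b ≤ a → ∀ n m : ℕ, ∀ ends : Fin m → Fin n × Fin n,
    (∀ (p : ℕ) (π : Fin n → Fin p), Function.Surjective π →
      a * p ≤ b * (Finset.univ.filter
        (fun e : Fin m => π (ends e).1 ≠ π (ends e).2)).card + a) →
    ∃ f : Fin m → ℤ,
      (∀ e, (a : ℤ) - b ≤ |f e| ∧ |f e| ≤ (a : ℤ) + b) ∧
      ∀ v : Fin n,
        ∑ e ∈ Finset.univ.filter (fun e : Fin m => (ends e).1 = v), f e =
        ∑ e ∈ Finset.univ.filter (fun e : Fin m => (ends e).2 = v), f e :=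
  Pool.Agent.helper11.CFL.FINR_final

end Pool.Agent.Results.MP_95f808_co.TreePackingFlows
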